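import Mathlib

namespace Pool.Agent.Results.MP_4223bd_al.B2

open Polynomial

/-- `(β, β) / 2` for the Gram matrix `G` of the simple roots -/
def hf {n : ℕ} (G : Matrix (Fin n) (Fin n) ℤ) (β : Fin n → ℕ) : ℤ :=
  (∑ i, ∑ j, (β i : ℤ) * G i j * β j) / 2

/-- `(q)_α` -/
noncomputable def qp {n : ℕ} (G : Matrix (Fin n) (Fin n) ℤ) (α : Fin n → ℕ) : RatFunc ℚ :=
  ∏ i, ∏ j ∈ Finset.range (α i), (1 - RatFunc.X ^ (G i i / 2 * (j + 1) : ℤ))

/-- the defining recursion -/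
def IsJ {n : ℕ} (G : Matrix (Fin n) (Fin n) ℤ) (J : (Fin n → ℕ) → RatFunc ℚ) : Prop :=
  J 0 = 1 ∧ ∀ α, J α = ∑ β ∈ Finset.Iic α, RatFunc.X ^ hf G β / qp G (α - β) * J β

def Unimodal (p : ℚ[X]) : Prop :=
  ∃ m ≤ p.natDegree, (∀ k < m, p.coeff k ≤ p.coeff (k + 1)) ∧
    ∀ k, m ≤ k → k < p.natDegree → p.coeff (k + 1) ≤ p.coeff k

theorem ne (k : ℕ) (hk : k ≠ 0) : (1 - RatFunc.X ^ k : RatFunc ℚ) ≠ 0 := by
  have : (1 - RatFunc.X ^ k : RatFunc ℚ) = algebraMap ℚ[X] (RatFunc ℚ) (1 - X ^ k) := by simp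
  rw [this]
  refine RatFunc.algebraMap_ne_zero fun h => ?_
  simpa [hk] using congrArg (eval 0) h

theorem sum_Iic (f : (Fin 2 → ℕ) → RatFunc ℚ) (a b : ℕ) :
    ∑ β ∈ Finset.Iic ![a, b], f β =
      ∑ i ∈ Finset.range (a + 1), ∑ j ∈ Finset.range (b + 1), f ![i, j] := by
  rw [← Finset.sum_product']
  refine Finset.sum_bij' (fun β _ => (β 0, β 1)) (fun p _ => ![p.1, p.2]) ?_ ?_ ?_ ?_ ?_
  · intro β h
    have h := Finset.mem_Iic.1 h
    simpa [Nat.lt_succ_iff] using And.intro (h 0) (h 1)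
  · intro p h
    simp only [Finset.mem_product, Finset.mem_range, Nat.lt_succ_iff] at h
    refine Finset.mem_Iic.2 fun i => ?_
    fin_cases i
    exacts [h.1, h.2]
  · intro β _
    ext i
    fin_cases i <;> rfl
  · intro p _
    rfl
  · intro β _
    congr 1
    ext i
    fin_cases i <;> rfl

theorem ex : ∃ J, IsJ !![4, -2; -2, 2] J := by
  classical
  let G : Matrix (Fin 2) (Fin 2) ℤ := !![4, -2; -2, 2]
  let J : (Fin 2 → ℕ) → RatFunc ℚ := (wellFounded_lt (α := Fin 2 → ℕ)).fix fun α ih =>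
    if α = 0 then 1 else (∑ β ∈ (Finset.Iio α).attach,
      RatFunc.X ^ hf G β / qp G (α - β) * ih β (Finset.mem_Iio.1 β.2)) / (1 - RatFunc.X ^ hf G α)
  have hJ : ∀ α, J α = if α = 0 then 1 else (∑ β ∈ Finset.Iio α,
      RatFunc.X ^ hf G β / qp G (α - β) * J β) / (1 - RatFunc.X ^ hf G α) := by
    intro α
    rw [← Finset.sum_attach]
    exact WellFounded.fix_eq _ _ _
  have h0 : J 0 = 1 := by rw [hJ, if_pos rfl]
  refine ⟨J, h0, fun α => ?_⟩
  rw [← Finset.Iio_insert, Finset.sum_insert (by simp), tsub_self]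
  by_cases h : α = 0
  · subst h
    have : Finset.Iio (0 : Fin 2 → ℕ) = ∅ := Finset.Iio_bot
    simp [this, hf, qp]
  · have h1 : 0 < hf G α := by
      have : α 0 ≠ 0 ∨ α 1 ≠ 0 := by
        by_contra hc
        push Not at hc
        exact h (by ext i; fin_cases i; exacts [hc.1, hc.2])
      have e : hf G α = (α 0 : ℤ) ^ 2 + ((α 0 : ℤ) - α 1) ^ 2 := by
        simp only [hf, G, Fin.sum_univ_two, Matrix.of_apply, Matrix.cons_val', Matrix.cons_val_zero,
          Matrix.cons_val_one, Matrix.cons_val_fin_one]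
        rw [Int.ediv_eq_iff_eq_mul_left (by norm_num) ⟨(α 0 : ℤ) ^ 2 + ((α 0 : ℤ) - α 1) ^ 2, by ring⟩]
        ring
      rw [e]
      rcases eq_or_ne (α 0) 0 with h2 | h2
      · have h3 := this.resolve_left (not_not.2 h2)
        have h4 : (0 : ℤ) < α 1 := by omega
        rw [h2]
        push_cast
        nlinarith
      · positivity
    obtain ⟨k, hk⟩ := Int.eq_ofNat_of_zero_le h1.le
    have h2 := hJ α
    rw [if_neg h, eq_div_iff (by rw [hk, zpow_natCast]; exact ne k (by omega))] at h2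
    rw [← h2]
    simp only [qp, Pi.zero_apply, Finset.range_zero, Finset.prod_empty, Finset.prod_const_one]
    ring

theorem result : (∃ J, IsJ !![4, -2; -2, 2] J) ∧ ∀ J, IsJ !![4, -2; -2, 2] J →
    ∃ N : ℚ[X], algebraMap ℚ[X] (RatFunc ℚ) N = qp !![4, -2; -2, 2] ![2, 2] ^ 2 * J ![2, 2] ∧
      N = 1 + X + 3 * X ^ 2 + 2 * X ^ 3 + 5 * X ^ 4 + 2 * X ^ 5 + 3 * X ^ 6 + X ^ 7 + X ^ 8 ∧
      ¬ Unimodal N := by
  refine ⟨ex, fun J ⟨h0, h⟩ => ⟨_, ?_, rfl, ?_⟩⟩
  · have z : J ![0, 0] = 1 := by rw [← h0]; congr 1; ext i; fin_cases i <;> rfl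
    have h01 := h ![0, 1]
    have h02 := h ![0, 2]
    have h10 := h ![1, 0]
    have h11 := h ![1, 1]
    have h12 := h ![1, 2]
    have h20 := h ![2, 0]
    have h21 := h ![2, 1]
    have h22 := h ![2, 2]
    simp only [sum_Iic, Finset.sum_range_succ, Finset.sum_range_zero, hf, qp, Fin.sum_univ_two,
      Fin.prod_univ_two, Pi.sub_apply, Matrix.of_apply, Matrix.cons_val', Matrix.cons_val_zero,
      Matrix.cons_val_one, Matrix.cons_val_fin_one, z] at h01 h02 h10 h11 h12 h20 h21 h22 ⊢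
    norm_num [Finset.prod_range_succ] at h01 h02 h10 h11 h12 h20 h21 h22 ⊢
    simp only [map_ofNat]
    have n1 : (1 - RatFunc.X : RatFunc ℚ) ≠ 0 := by simpa using ne 1 one_ne_zero
    have n2 := ne 2 (by omega)
    have n4 := ne 4 (by omega)
    have n5 := ne 5 (by omega)
    have n8 := ne 8 (by omega)
    generalize (RatFunc.X : RatFunc ℚ) = x at *
    have e01 : J ![0, 1] = (1 * x ^ 0) /
        ((1 - x)) ^ 2 := by
      apply mul_left_cancel₀ n1
      linear_combination (norm := (field_simp; ring)) h01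
    have e10 : J ![1, 0] = (1 * x ^ 0) /
        ((1 - x ^ 2)) ^ 2 := by
      apply mul_left_cancel₀ n2
      linear_combination (norm := (field_simp; ring)) h10
    have e02 : J ![0, 2] = (1 * x ^ 0) /
        ((1 - x) * (1 - x ^ 2)) ^ 2 := by
      rw [e01] at h02
      apply mul_left_cancel₀ n4
      linear_combination (norm := (field_simp; ring)) h02
    have e11 : J ![1, 1] = (1 * x ^ 0 + 1 * x ^ 1 + 1 * x ^ 2) /
        ((1 - x ^ 2) * (1 - x)) ^ 2 := by
      rw [e01, e10] at h11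
      apply mul_left_cancel₀ n1
      linear_combination (norm := (field_simp; ring)) h11
    have e20 : J ![2, 0] = (1 * x ^ 0) /
        ((1 - x ^ 2) * (1 - x ^ 4)) ^ 2 := by
      rw [e10] at h20
      apply mul_left_cancel₀ n8
      linear_combination (norm := (field_simp; ring)) h20
    have e12 : J ![1, 2] = (1 * x ^ 0 + 1 * x ^ 1 + 3 * x ^ 2 + 1 * x ^ 3 + 1 * x ^ 4) /
        ((1 - x ^ 2) * (1 - x) * (1 - x ^ 2)) ^ 2 := by
      rw [e01, e10, e02, e11] at h12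
      apply mul_left_cancel₀ n2
      linear_combination (norm := (field_simp; ring)) h12
    have e21 : J ![2, 1] = (1 * x ^ 0 + 1 * x ^ 1 + 1 * x ^ 2 + 1 * x ^ 3 + 1 * x ^ 4) /
        ((1 - x ^ 2) * (1 - x ^ 4) * (1 - x)) ^ 2 := by
      rw [e01, e10, e11, e20] at h21
      apply mul_left_cancel₀ n5
      linear_combination (norm := (field_simp; ring)) h21
    have e22 : J ![2, 2] = (1 * x ^ 0 + 1 * x ^ 1 + 3 * x ^ 2 + 2 * x ^ 3 + 5 * x ^ 4 + 2 * x ^ 5 + 3 * x ^ 6 + 1 * x ^ 7 + 1 * x ^ 8) /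
        ((1 - x ^ 2) * (1 - x ^ 4) * (1 - x) * (1 - x ^ 2)) ^ 2 := by
      rw [e01, e10, e02, e11, e20, e12, e21] at h22
      apply mul_left_cancel₀ n4
      linear_combination (norm := (field_simp; ring)) h22
    rw [e22]
    field_simp
  · rintro ⟨m, -, h1, h2⟩
    have hd : (1 + X + 3 * X ^ 2 + 2 * X ^ 3 + 5 * X ^ 4 + 2 * X ^ 5 + 3 * X ^ 6 + X ^ 7 + X ^ 8 :
        ℚ[X]).natDegree = 8 := by compute_degree!
    rw [hd] at h2
    by_cases hm : m ≤ 2
    · have := h2 3 (by omega) (by omega)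
      norm_num [coeff_one, coeff_X, coeff_X_pow] at this
    · have := h1 2 (by omega)
      norm_num [coeff_one, coeff_X, coeff_X_pow] at this

end Pool.Agent.Results.MP_4223bd_al.B2
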